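import Pool.Agent.Q61.JS.Stm

/-!
# JS-11 (helper264): countable cover of the jump set
-/

namespace Pool.Agent.Q264.JS

open MeasureTheory Filter Topology Set Metric Pool.Agent.Q61.JS
open scoped ENNReal NNReal

variable {N d : ℕ}

theorem halfBall_meas (x ν : E N) (r : ℝ) : MeasurableSet (halfBall x ν r) := by
  have h : halfBall x ν r = ball x r ∩ {y | 0 < inner ℝ (y - x) ν} := rfl
  rw [h]
  refine measurableSet_ball.inter (IsOpen.measurableSet ?_)
  exact isOpen_lt continuous_const (by fun_prop)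

theorem hyper_null (x ν : E N) (hν : ‖ν‖ = 1) :
    volume {y : E N | inner ℝ (y - x) ν = 0} = 0 := by
  have h1 : {y : E N | inner ℝ (y - x) ν = 0} =
      ((AffineSubspace.mk' x (LinearMap.ker (innerSL ℝ ν).toLinearMap) : AffineSubspace ℝ (E N)) :
        Set (E N)) := by
    ext y
    simp [AffineSubspace.mem_mk', real_inner_comm]
  rw [h1]
  apply Measure.addHaar_affineSubspace
  intro h
  have h2 : (x + ν) ∈ (AffineSubspace.mk' x (LinearMap.ker (innerSL ℝ ν).toLinearMap) :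
      AffineSubspace ℝ (E N)) := by rw [h]; exact AffineSubspace.mem_top _ _ _
  rw [AffineSubspace.mem_mk'] at h2
  simp at h2
  rw [h2] at hν
  simp at hν

/-- integral against the pure jump function on a ball -/
theorem int_st (u : E N → E d) (a b : E d) (ν x : E N) (hν : ‖ν‖ = 1) (r : ℝ) :
    ∫⁻ y in ball x r, ‖u y - st a b ν x y‖ₑ ≤
      (∫⁻ y in halfBall x ν r, ‖u y - a‖ₑ) + ∫⁻ y in halfBall x (-ν) r, ‖u y - b‖ₑ := by
  have hsub : ball x r ⊆ (halfBall x ν r ∪ halfBall x (-ν) r) ∪ {y : E N | inner ℝ (y - x) ν = 0} := by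
    intro y hy
    rcases lt_trichotomy (inner ℝ (y - x) ν) 0 with h | h | h
    · left; right; exact ⟨hy, by rw [inner_neg_right]; linarith⟩
    · right; exact h
    · left; left; exact ⟨hy, h⟩
  calc ∫⁻ y in ball x r, ‖u y - st a b ν x y‖ₑ
      ≤ ∫⁻ y in (halfBall x ν r ∪ halfBall x (-ν) r) ∪ {y : E N | inner ℝ (y - x) ν = 0},
          ‖u y - st a b ν x y‖ₑ := lintegral_mono_set hsub
    _ ≤ (∫⁻ y in (halfBall x ν r ∪ halfBall x (-ν) r), ‖u y - st a b ν x y‖ₑ) +
          ∫⁻ y in {y : E N | inner ℝ (y - x) ν = 0}, ‖u y - st a b ν x y‖ₑ :=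
        lintegral_union_le _ _ _
    _ = (∫⁻ y in (halfBall x ν r ∪ halfBall x (-ν) r), ‖u y - st a b ν x y‖ₑ) := by
        rw [setLIntegral_measure_zero _ _ (hyper_null x ν hν), add_zero]
    _ ≤ (∫⁻ y in halfBall x ν r, ‖u y - st a b ν x y‖ₑ) +
          ∫⁻ y in halfBall x (-ν) r, ‖u y - st a b ν x y‖ₑ := lintegral_union_le _ _ _
    _ = _ := by
        congr 1
        · apply setLIntegral_congr_fun (halfBall_meas x ν r)
          intro y hy
          have : 0 < inner ℝ (y - x) ν := hy.2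
          simp only [st, if_pos this]
        · apply setLIntegral_congr_fun (halfBall_meas x (-ν) r)
          intro y hy
          have h1 : 0 < inner ℝ (y - x) (-ν) := hy.2
          rw [inner_neg_right] at h1
          have : ¬ (0 < inner ℝ (y - x) ν) := by linarith
          simp only [st, if_neg this]

theorem vol_ball (n : ℕ) (x : E (n + 1)) (r : ℝ) (hr : 0 < r) :
    volume (ball x r) = ENNReal.ofReal (om (n + 1) * r ^ (n + 1)) := by
  rw [Measure.addHaar_ball _ _ hr.le, finrank_euclideanSpace_fin, om,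
    ENNReal.ofReal_mul ENNReal.toReal_nonneg,
    ENNReal.ofReal_toReal measure_ball_lt_top.ne, mul_comm]

/-- the difference of two close jump functions -/
theorem st_diff (a b a1 b1 : E d) (ν ν1 x y : E N) (r η : ℝ) (hη : 0 ≤ η) (ha : ‖a - a1‖ ≤ η)
    (hb : ‖b - b1‖ ≤ η) (hν1 : ‖ν - ν1‖ < η) (hy : y ∈ ball x r) :
    ‖st a b ν x y - st a1 b1 ν1 x y‖ ≤ η ∨
      ((- (η * r) < inner ℝ (y - x) ν ∧ inner ℝ (y - x) ν < η * r) ∧
        ‖st a b ν x y - st a1 b1 ν1 x y‖ ≤ η + ‖a - b‖) := by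
  have hyr : ‖y - x‖ < r := by rw [← dist_eq_norm]; exact hy
  have hin : |inner ℝ (y - x) ν - inner ℝ (y - x) ν1| < η * r := by
    rw [← inner_sub_right]
    calc |inner ℝ (y - x) (ν - ν1)| ≤ ‖y - x‖ * ‖ν - ν1‖ := abs_real_inner_le_norm _ _
      _ < r * η := by
          have h0 : 0 < r := lt_of_le_of_lt (norm_nonneg _) hyr
          calc ‖y - x‖ * ‖ν - ν1‖ ≤ r * ‖ν - ν1‖ :=
                mul_le_mul_of_nonneg_right hyr.le (norm_nonneg _)
            _ < r * η := mul_lt_mul_of_pos_left hν1 h0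
      _ = η * r := mul_comm _ _
  rw [abs_lt] at hin
  by_cases h1 : 0 < inner ℝ (y - x) ν
  · by_cases h2 : 0 < inner ℝ (y - x) ν1
    · left; simp only [st, if_pos h1, if_pos h2]; exact ha
    · right
      refine ⟨⟨by linarith [hin.1, hin.2], by linarith [hin.2]⟩, ?_⟩
      simp only [st, if_pos h1, if_neg h2]
      calc ‖a - b1‖ = ‖(b - b1) + (a - b)‖ := by congr 1; abel
        _ ≤ _ := (norm_add_le _ _).trans (by linarith)
  · by_cases h2 : 0 < inner ℝ (y - x) ν1
    · right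
      refine ⟨⟨by linarith [hin.1], by linarith [hin.1, hin.2]⟩, ?_⟩
      simp only [st, if_neg h1, if_pos h2]
      calc ‖b - a1‖ = ‖(a - a1) - (a - b)‖ := by congr 1; abel
        _ ≤ _ := (norm_sub_le _ _).trans (by linarith)
    · left; simp only [st, if_neg h1, if_neg h2]; exact hb

theorem main_bound (hP : S_PROJ) (n d : ℕ) (u : E (n + 1) → E d) (a b a1 b1 : E d)
    (ν ν1 x : E (n + 1)) (r η : ℝ) (hr : 0 < r) (hη : 0 < η) (hν : ‖ν‖ = 1)
    (ha : ‖a - a1‖ ≤ η) (hb : ‖b - b1‖ ≤ η) (hν1 : ‖ν - ν1‖ < η) :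
    ∫⁻ y in ball x r, ‖u y - st a1 b1 ν1 x y‖ₑ ≤
      ((∫⁻ y in halfBall x ν r, ‖u y - a‖ₑ) + ∫⁻ y in halfBall x (-ν) r, ‖u y - b‖ₑ) +
        (ENNReal.ofReal (η * (om (n + 1) * r ^ (n + 1))) +
          ENNReal.ofReal (‖a - b‖ * (2 * (η * r) * (om n * r ^ n)))) := by
  obtain ⟨P, hP1, hP2⟩ := hP n ν hν
  set k : E (n + 1) := x + (η * r) • ν with hk
  have hinν : inner ℝ ν ν = (1 : ℝ) := by rw [real_inner_self_eq_norm_sq, hν]; norm_num
  have hPν : P ν = 0 := by
    have h1 := hP1 ν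
    rw [hinν, hν] at h1
    have h2 : ‖P ν‖ ^ 2 = 0 := by linarith
    have h3 : ‖P ν‖ = 0 := by simpa using h2
    exact norm_eq_zero.mp h3
  set Cy : Set (E (n + 1)) := {y : E (n + 1) | -(2 * (η * r)) < inner ℝ (y - k) ν ∧
    inner ℝ (y - k) ν ≤ 0 ∧ ‖P (y - k)‖ < r} with hCy
  have hPc : Continuous P := P.continuous_of_finiteDimensional
  have hCm : MeasurableSet Cy := by
    have h1 : MeasurableSet {y : E (n + 1) | -(2 * (η * r)) < inner ℝ (y - k) ν} :=
      (isOpen_lt continuous_const (by fun_prop)).measurableSet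
    have h2 : MeasurableSet {y : E (n + 1) | inner ℝ (y - k) ν ≤ 0} :=
      (isClosed_le (by fun_prop) continuous_const).measurableSet
    have h3 : MeasurableSet {y : E (n + 1) | ‖P (y - k)‖ < r} :=
      (isOpen_lt (hPc.comp (continuous_id.sub continuous_const)).norm
        continuous_const).measurableSet
    exact h1.inter (h2.inter h3)
  have hCv : volume Cy = ENNReal.ofReal (2 * (η * r) * (om n * r ^ n)) :=
    hP2 k (2 * (η * r)) r (by positivity) hr
  have hpt : ∀ y ∈ ball x r, ‖u y - st a1 b1 ν1 x y‖ₑ ≤ ‖u y - st a b ν x y‖ₑ +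
      (ENNReal.ofReal η + Cy.indicator (fun _ => ENNReal.ofReal ‖a - b‖) y) := by
    intro y hy
    have h1 : ‖u y - st a1 b1 ν1 x y‖ ≤ ‖u y - st a b ν x y‖ +
        ‖st a b ν x y - st a1 b1 ν1 x y‖ := by
      calc ‖u y - st a1 b1 ν1 x y‖ = ‖(u y - st a b ν x y) + (st a b ν x y - st a1 b1 ν1 x y)‖ := by
            congr 1; abel
        _ ≤ _ := norm_add_le _ _
    have h2 : ‖u y - st a1 b1 ν1 x y‖ₑ ≤ ‖u y - st a b ν x y‖ₑ +
        ENNReal.ofReal ‖st a b ν x y - st a1 b1 ν1 x y‖ := by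
      rw [← ofReal_norm, ← ofReal_norm,
        ← ENNReal.ofReal_add (norm_nonneg _) (norm_nonneg _)]
      exact ENNReal.ofReal_le_ofReal h1
    refine h2.trans (add_le_add le_rfl ?_)
    rcases st_diff a b a1 b1 ν ν1 x y r η hη.le ha hb hν1 hy with h | ⟨⟨h3, h4⟩, h5⟩
    · exact (ENNReal.ofReal_le_ofReal h).trans le_self_add
    · have hyC : y ∈ Cy := by
        have e1 : inner ℝ (y - k) ν = inner ℝ (y - x) ν - η * r := by
          rw [hk, ← sub_sub, inner_sub_left, inner_smul_left, hinν]; simp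
        refine ⟨?_, ?_, ?_⟩
        · rw [e1]; linarith
        · rw [e1]; linarith
        · have e2 : P (y - k) = P (y - x) := by
            rw [hk, ← sub_sub, map_sub P (y - x), map_smul, hPν, smul_zero, sub_zero]
          rw [e2]
          have e3 : ‖P (y - x)‖ ^ 2 ≤ ‖y - x‖ ^ 2 := by
            have := hP1 (y - x)
            nlinarith [sq_nonneg (inner ℝ (y - x) ν)]
          have e4 : ‖P (y - x)‖ ≤ ‖y - x‖ := by
            exact le_of_sq_le_sq e3 (norm_nonneg _)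
          have e5 : ‖y - x‖ < r := by rw [← dist_eq_norm]; exact hy
          exact lt_of_le_of_lt e4 e5
      rw [indicator_of_mem hyC, ← ENNReal.ofReal_add hη.le (norm_nonneg _)]
      exact ENNReal.ofReal_le_ofReal h5
  calc ∫⁻ y in ball x r, ‖u y - st a1 b1 ν1 x y‖ₑ
      ≤ ∫⁻ y in ball x r, (‖u y - st a b ν x y‖ₑ +
          (ENNReal.ofReal η + Cy.indicator (fun _ => ENNReal.ofReal ‖a - b‖) y)) :=
        setLIntegral_mono' measurableSet_ball hpt
    _ = (∫⁻ y in ball x r, ‖u y - st a b ν x y‖ₑ) +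
          ∫⁻ y in ball x r, (ENNReal.ofReal η +
            Cy.indicator (fun _ => ENNReal.ofReal ‖a - b‖) y) :=
        lintegral_add_right _ ((measurable_const.indicator hCm).const_add _)
    _ = (∫⁻ y in ball x r, ‖u y - st a b ν x y‖ₑ) +
          ((∫⁻ y in ball x r, ENNReal.ofReal η) +
            ∫⁻ y in ball x r, Cy.indicator (fun _ => ENNReal.ofReal ‖a - b‖) y) := by
        rw [lintegral_add_left measurable_const]
    _ ≤ _ := by
        refine add_le_add (int_st u a b ν x hν r) (add_le_add ?_ ?_)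
        · rw [setLIntegral_const, vol_ball n x r hr, ← ENNReal.ofReal_mul hη.le]
        · calc ∫⁻ y in ball x r, Cy.indicator (fun _ => ENNReal.ofReal ‖a - b‖) y
              ≤ ∫⁻ y, Cy.indicator (fun _ => ENNReal.ofReal ‖a - b‖) y :=
                setLIntegral_le_lintegral _ _
            _ = ENNReal.ofReal ‖a - b‖ * volume Cy := by
                rw [lintegral_indicator hCm, setLIntegral_const]
            _ = _ := by rw [hCv, ← ENNReal.ofReal_mul (norm_nonneg _)]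

theorem om_nonneg (n : ℕ) : 0 ≤ om n := ENNReal.toReal_nonneg

/-- JS-11 -/
theorem cov (hP : S_PROJ) : S_COV := by
  intro n d u δ hδ hu
  obtain ⟨D, hDc, hDd⟩ := TopologicalSpace.exists_countable_dense (E d)
  obtain ⟨V, hVc, hVd⟩ := TopologicalSpace.exists_countable_dense (sphere (0 : E (n + 1)) 1)
  refine ⟨{p | (p.1 ∈ D ∧ p.2.1 ∈ D ∧ p.2.2.1 ∈ (fun z : sphere (0 : E (n + 1)) 1 =>
    (z : E (n + 1))) '' V) ∧ p.1 ≠ p.2.1}, ?_, ?_, ?_⟩
  · have h1 : (D ×ˢ (D ×ˢ (((fun z : sphere (0 : E (n + 1)) 1 => (z : E (n + 1))) '' V) ×ˢ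
        (univ : Set ℕ)))).Countable :=
      hDc.prod (hDc.prod ((hVc.image _).prod countable_univ))
    refine h1.mono ?_
    rintro ⟨a, b, v, m⟩ ⟨⟨h1, h2, h3⟩, _⟩
    exact ⟨h1, h2, h3, mem_univ _⟩
  · rintro ⟨a, b, v, m⟩ ⟨⟨_, _, ⟨z, _, hz⟩⟩, hne⟩
    refine ⟨hne, ?_⟩
    simp only at hz ⊢
    rw [← hz]
    simp
  · rintro x ⟨a, b, ν, hab, hν, h1, h2⟩
    set s : ℝ := ‖a - b‖ with hs
    have hs0 : 0 < s := by rw [hs]; exact norm_pos_iff.mpr (sub_ne_zero.mpr hab)
    set C : ℝ := 2 + om (n + 1) + 2 * s * om n with hC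
    have hC0 : 0 < C := by
      have := om_nonneg (n + 1)
      have := mul_nonneg (mul_nonneg (by norm_num : (0:ℝ) ≤ 2) hs0.le) (om_nonneg n)
      rw [hC]; linarith
    set η : ℝ := min (s / 4) (δ * (s / 2) / C) with hηd
    have hη : 0 < η := lt_min (by linarith) (by positivity)
    have hη1 : η ≤ s / 4 := min_le_left _ _
    have hη2 : η * C ≤ δ * (s / 2) := by
      have := min_le_right (s / 4) (δ * (s / 2) / C)
      rw [← hηd] at this
      calc η * C ≤ (δ * (s / 2) / C) * C := mul_le_mul_of_nonneg_right this hC0.le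
        _ = _ := by field_simp
    obtain ⟨a1, ha1, ha1'⟩ := hDd.exists_dist_lt a hη
    obtain ⟨b1, hb1, hb1'⟩ := hDd.exists_dist_lt b hη
    obtain ⟨v, hv, hv'⟩ := hVd.exists_dist_lt (⟨ν, by simpa using hν⟩ : sphere (0 : E (n + 1)) 1) hη
    have ha2 : ‖a - a1‖ ≤ η := by rw [← dist_eq_norm]; exact ha1'.le
    have hb2 : ‖b - b1‖ ≤ η := by rw [← dist_eq_norm]; exact hb1'.le
    have hv2 : ‖ν - (v : E (n + 1))‖ < η := by
      rw [← dist_eq_norm]; exact hv'
    have hab1 : s / 2 ≤ ‖a1 - b1‖ := by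
      have : s ≤ ‖a - a1‖ + ‖a1 - b1‖ + ‖b - b1‖ := by
        calc s = ‖(a - a1) + (a1 - b1) - (b - b1)‖ := by rw [hs]; congr 1; abel
          _ ≤ ‖(a - a1) + (a1 - b1)‖ + ‖b - b1‖ := norm_sub_le _ _
          _ ≤ _ := by linarith [norm_add_le (a - a1) (a1 - b1)]
      linarith
    have hne : a1 ≠ b1 := by
      intro h
      rw [h, sub_self, norm_zero] at hab1
      linarith
    -- eventually the integrals are small
    have hseq : Tendsto (fun k : ℕ => (1 : ℝ) / ((k : ℝ) + 1)) atTop (𝓝[>] 0) := by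
      refine tendsto_nhdsWithin_iff.mpr ⟨tendsto_one_div_add_atTop_nhds_zero_nat, ?_⟩
      exact Eventually.of_forall fun k => by
        show (0 : ℝ) < 1 / ((k : ℝ) + 1)
        positivity
    have hpos : (0 : ℝ≥0∞) < ENNReal.ofReal η := ENNReal.ofReal_pos.mpr hη
    have e1 := (h1.comp hseq).eventually (eventually_lt_nhds hpos)
    have e2 := (h2.comp hseq).eventually (eventually_lt_nhds hpos)
    obtain ⟨m, hm⟩ := eventually_atTop.mp (e1.and e2)
    refine mem_iUnion₂.mpr ⟨(a1, b1, (v : E (n + 1)), m), ⟨⟨ha1, hb1, ⟨v, hv, rfl⟩⟩, hne⟩, ?_⟩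
    intro k hk
    obtain ⟨f1, f2⟩ := hm k hk
    simp only [Function.comp] at f1 f2
    set r : ℝ := 1 / ((k : ℝ) + 1) with hr
    have hr0 : 0 < r := by rw [hr]; positivity
    have hrN : (0 : ℝ) < r ^ (n + 1) := by positivity
    have g1 : ∫⁻ y in halfBall x ν r, ‖u y - a‖ₑ ≤ ENNReal.ofReal (η * r ^ (n + 1)) := by
      rw [ENNReal.ofReal_mul hη.le]
      exact (ENNReal.div_le_iff (by simpa using hrN) ENNReal.ofReal_ne_top).mp f1.le
    have g2 : ∫⁻ y in halfBall x (-ν) r, ‖u y - b‖ₑ ≤ ENNReal.ofReal (η * r ^ (n + 1)) := by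
      rw [ENNReal.ofReal_mul hη.le]
      exact (ENNReal.div_le_iff (by simpa using hrN) ENNReal.ofReal_ne_top).mp f2.le
    refine (main_bound hP n d u a b a1 b1 ν v x r η hr0 hη hν ha2 hb2 hv2).trans ?_
    refine (add_le_add (add_le_add g1 g2) le_rfl).trans ?_
    have p1 : 0 ≤ η * r ^ (n + 1) := by positivity
    have p2 : 0 ≤ η * (om (n + 1) * r ^ (n + 1)) :=
      mul_nonneg hη.le (mul_nonneg (om_nonneg _) hrN.le)
    have p3 : 0 ≤ ‖a - b‖ * (2 * (η * r) * (om n * r ^ n)) := by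
      have := om_nonneg n
      positivity
    rw [← ENNReal.ofReal_add p1 p1, ← ENNReal.ofReal_add p2 p3,
      ← ENNReal.ofReal_add (by linarith) (by linarith)]
    apply ENNReal.ofReal_le_ofReal
    have e3 : η * r ^ (n + 1) + η * r ^ (n + 1) + (η * (om (n + 1) * r ^ (n + 1)) +
        ‖a - b‖ * (2 * (η * r) * (om n * r ^ n))) = (η * C) * r ^ (n + 1) := by
      rw [hC, ← hs, pow_succ]; ring
    rw [e3]
    calc (η * C) * r ^ (n + 1) ≤ (δ * (s / 2)) * r ^ (n + 1) :=
          mul_le_mul_of_nonneg_right hη2 hrN.le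
      _ ≤ (δ * ‖a1 - b1‖) * r ^ (n + 1) :=
          mul_le_mul_of_nonneg_right (mul_le_mul_of_nonneg_left hab1 hδ.le) hrN.le

end Pool.Agent.Q264.JS
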